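import Pool.Agent.N520.AN.Stm

/-!
Project AN (helper520): two plates are equal or transversal.
-/

set_option autoImplicit false

open Set Filter Topology Module

namespace Pool.Agent.N572.AN

open Pool.Agent.N520.AN

section
variable {E : Type} [NormedAddCommGroup E] [NormedSpace ℝ E] [FiniteDimensional ℝ E]

/-- bilinear forms are continuous -/
theorem tendsto_bil (B : E →ₗ[ℝ] E →ₗ[ℝ] ℝ) {x y : ℕ → E} {v w : E}
    (hx : Tendsto x atTop (𝓝 v)) (hy : Tendsto y atTop (𝓝 w)) :
    Tendsto (fun j => B (x j) (y j)) atTop (𝓝 (B v w)) := by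
  let T : E →ₗ[ℝ] (E →L[ℝ] ℝ) :=
    (LinearMap.toContinuousLinearMap : (E →ₗ[ℝ] ℝ) ≃ₗ[ℝ] (E →L[ℝ] ℝ)).toLinearMap ∘ₗ B
  have hT : Continuous T := T.continuous_of_finiteDimensional
  have h1 : Continuous fun p : E × E => (T p.1) p.2 :=
    (hT.comp continuous_fst).clm_apply continuous_snd
  exact (h1.tendsto (v, w)).comp (hx.prodMk_nhds hy)

/-- limit spaces are isotropic -/
theorem isotropic {B : E →ₗ[ℝ] E →ₗ[ℝ] ℝ} {q : ℕ} {Λ : Subgroup (E ≃ₗ[ℝ] E)} (hA : Antip B q Λ)
    {h : ℕ → E ≃ₗ[ℝ] E} (hh : ∀ j, h j ∈ Λ) {v w : E} (hv : v ∈ att h) (hw : w ∈ att h) :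
    B v w = 0 := by
  obtain ⟨b, hb, hbv⟩ := hv
  obtain ⟨c, hc, hcw⟩ := hw
  have h1 := tendsto_bil B hbv hcw
  have h2 := tendsto_bil B hb hc
  have h3 : (fun j => B (h j (b j)) (h j (c j))) = fun j => B (b j) (c j) := by
    funext j
    exact hA.pres _ (hh j) _ _
  rw [h3] at h1
  have h4 := tendsto_nhds_unique h1 h2
  rw [h4]
  simp

end

theorem t_fam : S_FAM := by
  intro E _ _ _ B q Λ hA k hk l hl
  obtain ⟨-, g, hg, hgq, hgk⟩ := hk
  obtain ⟨-, h, hh, hhq, hhl⟩ := hl
  rcases hA.anti g h hg hh hgq hhq with heq | hne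
  · left
    ext x
    rw [hgk, hhl, heq]
  · right
    have hinf : att g ⊓ att h = ⊥ := by
      rw [eq_bot_iff]
      rintro v ⟨hv1, hv2⟩
      have := hne v hv1 fun w hw => isotropic hA hh hv2 hw
      rw [this]
      exact Submodule.zero_mem _
    have hnd : LinearMap.BilinForm.Nondegenerate B :=
      ⟨hA.nondeg, fun v hv => hA.nondeg v fun w => hA.refl w v (hv w)⟩
    have mk : ∀ x, x ∈ LinearMap.BilinForm.orthogonal B (att g) ↔ x ∈ range k := by
      intro x
      rw [hgk, LinearMap.BilinForm.mem_orthogonal_iff]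
      exact ⟨fun h1 v hv => hA.refl _ _ (h1 v hv), fun h1 v hv => hA.refl _ _ (h1 v hv)⟩
    have ml : ∀ x, x ∈ LinearMap.BilinForm.orthogonal B (att h) ↔ x ∈ range l := by
      intro x
      rw [hhl, LinearMap.BilinForm.mem_orthogonal_iff]
      exact ⟨fun h1 v hv => hA.refl _ _ (h1 v hv), fun h1 v hv => hA.refl _ _ (h1 v hv)⟩
    have hinf2 : LinearMap.BilinForm.orthogonal B (att g) ⊓ LinearMap.BilinForm.orthogonal B (att h) =
        LinearMap.BilinForm.orthogonal B (att g ⊔ att h) := by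
      ext x
      rw [Submodule.mem_inf, LinearMap.BilinForm.mem_orthogonal_iff,
        LinearMap.BilinForm.mem_orthogonal_iff, LinearMap.BilinForm.mem_orthogonal_iff]
      constructor
      · rintro ⟨h1, h2⟩ v hv
        obtain ⟨a, ha, b, hb, rfl⟩ := Submodule.mem_sup.1 hv
        rw [map_add, LinearMap.add_apply, h1 a ha, h2 b hb, add_zero]
      · intro h1
        exact ⟨fun v hv => h1 v (Submodule.mem_sup_left hv),
          fun v hv => h1 v (Submodule.mem_sup_right hv)⟩
    have d1 := Submodule.finrank_sup_add_finrank_inf_eq (att g) (att h)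
    rw [hinf, finrank_bot, hgq, hhq, add_zero] at d1
    have d2 := Submodule.finrank_sup_add_finrank_inf_eq
      (LinearMap.BilinForm.orthogonal B (att g)) (LinearMap.BilinForm.orthogonal B (att h))
    rw [hinf2, LinearMap.BilinForm.finrank_orthogonal hnd, LinearMap.BilinForm.finrank_orthogonal hnd,
      LinearMap.BilinForm.finrank_orthogonal hnd, hgq, hhq, d1] at d2
    have d3 : finrank ℝ ↥(att g ⊔ att h) ≤ finrank ℝ E := Submodule.finrank_le _
    rw [d1] at d3
    have htop : LinearMap.BilinForm.orthogonal B (att g) ⊔ LinearMap.BilinForm.orthogonal B (att h) =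
        ⊤ := by
      apply Submodule.eq_top_of_finrank_eq
      omega
    intro e
    have he : e ∈ LinearMap.BilinForm.orthogonal B (att g) ⊔
        LinearMap.BilinForm.orthogonal B (att h) := by
      rw [htop]
      exact Submodule.mem_top
    obtain ⟨a, ha, b, hb, rfl⟩ := Submodule.mem_sup.1 he
    obtain ⟨f, rfl⟩ := (mk a).1 ha
    obtain ⟨f', rfl⟩ := (ml b).1 hb
    exact ⟨f, -f', by rw [map_neg, sub_neg_eq_add]⟩

end Pool.Agent.N572.AN
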